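import Pool.Agent.X319.SY.Twist

set_option autoImplicit false
set_option maxHeartbeats 4000000

/-!
The twists in terms of rational exponents.
-/

namespace Pool.Agent.X319.SY

open Finset Pool.Agent.W432.PC Pool.Agent.W280.PC Pool.Agent.TH571.PCV Polynomial
open Pool.Agent.X319.DI Pool.Agent.H916R2

universe u

variable {R : Type u} [CommRing R] [IsDomain R] [CharZero R]

lemma den_one_iff (q : ℚ) : q.den = 1 ↔ ∃ z : ℤ, q = z := by
  constructor
  · intro h
    exact ⟨q.num, ((Rat.den_eq_one_iff q).1 h).symm⟩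
  · rintro ⟨z, rfl⟩
    simp

/-- The inequalities for the twists. -/
theorem twist_rat {n r : ℕ} (α : Fin n → R) (hα : ∀ i j, i ≠ j → IsUnit (α i - α j))
    (A : Fin n → Matrix (Fin r) (Fin r) R) (lam : Option (Fin n) → Fin r → ℚ)
    (hlam : ∀ j, HasExponents (A j) (lam (some j)))
    (hinf : HasExponents (∑ j, A j) (fun l => -lam none l))
    (N : ℕ) (hN : 0 < N) (hNlam : ∀ x l, ∃ z : ℤ, (N : ℚ) * lam x l = z)
    (c : Option (Fin n) → ℚ) (hNc : ∀ x, ∃ z : ℤ, (N : ℚ) * c x = z)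
    (hc : ∃ z : ℤ, ∑ x, c x = z) (x0 : Option (Fin n)) (hx0 : ∀ l, (lam x0 l - c x0).den ≠ 1)
    (a : ℤ) (ha : IsCoprime a (N : ℤ)) (hno : ¬ Bad α A N a) :
    (r : ℚ) ≤ ∑ i : Option (Fin n) × Fin r, Int.fract ((a : ℚ) * (lam i.1 i.2 - c i.1)) ∧
    ∑ i : Option (Fin n) × Fin r, Int.fract ((a : ℚ) * (lam i.1 i.2 - c i.1)) ≤
      ((univ.filter fun i : Option (Fin n) × Fin r => (lam i.1 i.2 - c i.1).den ≠ 1).card : ℚ) -
        r := by
  classical
  choose E hE using hNlam
  choose C hC using hNc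
  have hNq : (0 : ℚ) < N := by exact_mod_cast hN
  have hN0 : (0 : ℤ) < N := by exact_mod_cast hN
  have hl : ∀ x l, lam x l = (E x l : ℚ) / N := fun x l => by
    rw [← hE]; field_simp
  have hcc : ∀ x, c x = (C x : ℚ) / N := fun x => by
    rw [← hC]; field_simp
  have hint : ∀ x l, (lam x l - c x).den = 1 ↔ (N : ℤ) ∣ E x l - C x := fun x l => by
    rw [den_one_iff]
    constructor
    · rintro ⟨z, hz⟩
      refine ⟨z, ?_⟩
      rw [hl, hcc] at hz
      have h1 : ((E x l - C x : ℤ) : ℚ) = ((N * z : ℤ) : ℚ) := by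
        push_cast
        field_simp at hz
        linarith
      exact_mod_cast h1
    · rintro ⟨z, hz⟩
      refine ⟨z, ?_⟩
      rw [hl, hcc]
      have h1 : ((E x l - C x : ℤ) : ℚ) = ((N * z : ℤ) : ℚ) := by exact_mod_cast hz
      push_cast at h1
      field_simp
      linarith
  have hCs : (N : ℤ) ∣ ∑ p, C p := by
    obtain ⟨z, hz⟩ := hc
    refine ⟨z, ?_⟩
    have h1 : ((∑ p, C p : ℤ) : ℚ) = ((N * z : ℤ) : ℚ) := by
      push_cast
      rw [← hz, mul_sum]
      exact sum_congr rfl fun x _ => (hC x).symm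
    exact_mod_cast h1
  obtain ⟨h1, h2⟩ := twist_both α hα A N hN E
    (fun j => by
      have := hlam j
      convert this using 2 with l
      exact (hl _ _).symm)
    (by
      convert hinf using 2 with l
      rw [hl]; ring) a ha hno C hCs x0 (fun l h => hx0 l ((hint x0 l).2 h))
  have hfr : ∀ i : Option (Fin n) × Fin r, Int.fract ((a : ℚ) * (lam i.1 i.2 - c i.1)) =
      (((a * (E i.1 i.2 - C i.1)) % (N : ℤ) : ℤ) : ℚ) / N := fun i => by
    have h3 := Int.emod_add_mul_ediv (a * (E i.1 i.2 - C i.1)) N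
    have h4 := Int.emod_nonneg (a * (E i.1 i.2 - C i.1)) hN0.ne'
    have h5 := Int.emod_lt_of_pos (a * (E i.1 i.2 - C i.1)) hN0
    set w := (a * (E i.1 i.2 - C i.1)) % (N : ℤ)
    set y := (a * (E i.1 i.2 - C i.1)) / (N : ℤ)
    have h6 : (w : ℚ) + N * y = a * (E i.1 i.2 - C i.1) := by exact_mod_cast h3
    rw [Int.fract_eq_iff]
    refine ⟨div_nonneg (by exact_mod_cast h4) hNq.le, ?_, y, ?_⟩
    · rw [div_lt_one hNq]
      exact_mod_cast h5
    · rw [hl, hcc]
      field_simp
      linarith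
  have hS : ∑ i : Option (Fin n) × Fin r, Int.fract ((a : ℚ) * (lam i.1 i.2 - c i.1)) =
      ((∑ i : Option (Fin n) × Fin r, (a * (E i.1 i.2 - C i.1)) % (N : ℤ) : ℤ) : ℚ) / N := by
    rw [Int.cast_sum, sum_div]
    exact sum_congr rfl fun i _ => hfr i
  rw [hS]
  constructor
  · rw [le_div_iff₀ hNq]
    exact_mod_cast h1
  · rw [div_le_iff₀ hNq]
    have h3 : ∑ i : Option (Fin n) × Fin r, (a * (E i.1 i.2 - C i.1)) % (N : ℤ) +
        ∑ i : Option (Fin n) × Fin r, (-(a * (E i.1 i.2 - C i.1))) % (N : ℤ) =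
        ((univ.filter fun i : Option (Fin n) × Fin r =>
          (lam i.1 i.2 - c i.1).den ≠ 1).card : ℤ) * N := by
      rw [← sum_add_distrib]
      have h10 : ∀ i : Option (Fin n) × Fin r, (a * (E i.1 i.2 - C i.1)) % (N : ℤ) +
          (-(a * (E i.1 i.2 - C i.1))) % (N : ℤ) =
          if (lam i.1 i.2 - c i.1).den ≠ 1 then (N : ℤ) else 0 := fun i => by
        rw [emod_add_neg hN0]
        have h11 : (N : ℤ) ∣ a * (E i.1 i.2 - C i.1) ↔ (lam i.1 i.2 - c i.1).den = 1 := by
          rw [hint]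
          exact ⟨fun h => ha.symm.dvd_of_dvd_mul_left h, fun h => Dvd.dvd.mul_left h _⟩
        by_cases h : (lam i.1 i.2 - c i.1).den = 1
        · rw [if_pos (h11.2 h), if_neg (not_not.2 h)]
        · rw [if_neg (fun h' => h (h11.1 h')), if_pos h]
      rw [sum_congr rfl fun i _ => h10 i, ← sum_filter, sum_const, nsmul_eq_mul]
    have h4 : ∑ i : Option (Fin n) × Fin r, (a * (E i.1 i.2 - C i.1)) % (N : ℤ) ≤
        (((univ.filter fun i : Option (Fin n) × Fin r =>
          (lam i.1 i.2 - c i.1).den ≠ 1).card : ℤ) - r) * N := by linarith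
    exact_mod_cast h4

/-- Asymmetric exponents. -/
theorem asym_bad {n r : ℕ} (α : Fin n → R) (hα : ∀ i j, i ≠ j → IsUnit (α i - α j))
    (A : Fin n → Matrix (Fin r) (Fin r) R) (lam : Option (Fin n) → Fin r → ℚ)
    (hlam : ∀ j, HasExponents (A j) (lam (some j)))
    (hinf : HasExponents (∑ j, A j) (fun l => -lam none l))
    (N : ℕ) (hN : 0 < N) (hNlam : ∀ x l, ∃ z : ℤ, (N : ℚ) * lam x l = z)
    (c : Option (Fin n) → ℚ) (hNc : ∀ x, ∃ z : ℤ, (N : ℚ) * c x = z)
    (hc : ∃ z : ℤ, ∑ x, c x = z) (x0 : Option (Fin n)) (hx0 : ∀ l, (lam x0 l - c x0).den ≠ 1)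
    (hW : (univ.filter fun i : Option (Fin n) × Fin r =>
      (lam i.1 i.2 - c i.1).den ≠ 1).card ≤ 2 * r)
    (M : ℕ) (hMd : ∀ x l, ∃ z : ℤ, (M : ℚ) * (lam x l - c x) = z)
    (hMp : M.Prime ∨ 0 < M ∧ ((2 * r : ℕ) : ℝ) * ∑ q ∈ M.primeFactors, (1 : ℝ) / ((q : ℝ) - 1) < 1)
    (t : ℚ)
    (ht : (univ.filter fun i : Option (Fin n) × Fin r => (lam i.1 i.2 - c i.1 - t).den = 1).card ≠
      (univ.filter fun i : Option (Fin n) × Fin r => (lam i.1 i.2 - c i.1 + t).den = 1).card) :
    ∃ a : ℤ, IsCoprime a (N : ℤ) ∧ Bad α A N a := by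
  classical
  by_contra hcon
  push Not at hcon
  have hM : 0 < M := by
    rcases hMp with h | h
    · exact h.pos
    · exact h.1
  -- the common divisor
  obtain ⟨g, hg⟩ : ∃ g, g = Nat.gcd M N := ⟨_, rfl⟩
  have hg0 : 0 < g := by rw [hg]; exact Nat.gcd_pos_of_pos_left _ hM
  have hgM : g ∣ M := by rw [hg]; exact Nat.gcd_dvd_left _ _
  have hgN : g ∣ N := by rw [hg]; exact Nat.gcd_dvd_right _ _
  obtain ⟨k, rfl⟩ := hgN
  have hk0 : 0 < k := by
    rcases Nat.eq_zero_or_pos k with h | h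
    · rw [h, mul_zero] at hN; omega
    · exact h
  have hgp : g.Prime ∨ ((2 * r : ℕ) : ℝ) * ∑ q ∈ g.primeFactors, (1 : ℝ) / ((q : ℝ) - 1) < 1 := by
    rcases hMp with h | h
    · rcases (Nat.dvd_prime h).1 hgM with h1 | h1
      · right
        rw [h1]
        simp
      · left
        rw [h1]
        exact h
    · right
      refine lt_of_le_of_lt (mul_le_mul_of_nonneg_left ?_ (Nat.cast_nonneg _)) h.2
      refine sum_le_sum_of_subset_of_nonneg (Nat.primeFactors_mono hgM hM.ne') fun q hq _ => ?_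
      have h4 := (Nat.prime_of_mem_primeFactors hq).one_lt
      have h5 : (1 : ℝ) < q := by exact_mod_cast h4
      exact div_nonneg zero_le_one (by linarith)
  choose E hE using hNlam
  choose C hC using hNc
  choose m hm using hMd
  have hNq : (0 : ℚ) < ((g * k : ℕ) : ℚ) := by exact_mod_cast hN
  have hgq : (0 : ℚ) < g := by exact_mod_cast hg0
  have hkq : (0 : ℚ) < k := by exact_mod_cast hk0
  have hl : ∀ x l, lam x l = (E x l : ℚ) / ((g * k : ℕ) : ℚ) := fun x l => by
    rw [← hE]; field_simp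
  have hcc : ∀ x, c x = (C x : ℚ) / ((g * k : ℕ) : ℚ) := fun x => by
    rw [← hC]; field_simp
  -- the numerators of the differences
  let u := Nat.gcdA M (g * k)
  let v := Nat.gcdB M (g * k)
  have huv : (g : ℚ) = M * u + ((g * k : ℕ) : ℚ) * v := by
    have h1 := Nat.gcd_eq_gcd_ab M (g * k)
    rw [← hg] at h1
    exact_mod_cast h1
  let μ : Option (Fin n) × Fin r → ℤ := fun i =>
    m i.1 i.2 * u + (E i.1 i.2 - C i.1) * v
  have hμ1 : ∀ i : Option (Fin n) × Fin r, (g : ℚ) * (lam i.1 i.2 - c i.1) = μ i := fun i => by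
    simp only [μ]
    push_cast
    rw [← hm, ← hE, ← hC]
    rw [huv]
    push_cast
    ring
  have hμ : ∀ i : Option (Fin n) × Fin r, E i.1 i.2 - C i.1 = k * μ i := fun i => by
    have h1 := hμ1 i
    rw [hl, hcc] at h1
    have h2 : ((E i.1 i.2 - C i.1 : ℤ) : ℚ) = ((k * μ i : ℤ) : ℚ) := by
      push_cast at h1 ⊢
      rw [← h1]
      field_simp
    exact_mod_cast h2
  have hint : ∀ (i : Option (Fin n) × Fin r) (τ : ℤ),
      (lam i.1 i.2 - c i.1 - (τ : ℚ) / g).den = 1 ↔ ((μ i : ℤ) : ZMod g) = τ := fun i τ => by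
    rw [den_one_iff, ← sub_eq_zero, ← Int.cast_sub, ZMod.intCast_zmod_eq_zero_iff_dvd]
    constructor
    · rintro ⟨z, hz⟩
      refine ⟨z, ?_⟩
      have h1 : ((μ i - τ : ℤ) : ℚ) = ((g * z : ℤ) : ℚ) := by
        push_cast
        rw [← hμ1 i, ← hz]
        field_simp
      exact_mod_cast h1
    · rintro ⟨z, hz⟩
      refine ⟨z, ?_⟩
      have h1 : ((μ i - τ : ℤ) : ℚ) = ((g * z : ℤ) : ℚ) := by exact_mod_cast hz
      push_cast at h1
      rw [← hμ1 i] at h1
      field_simp
      linarith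
  have hint0 : ∀ i : Option (Fin n) × Fin r,
      (lam i.1 i.2 - c i.1).den = 1 ↔ (g : ℤ) ∣ μ i := fun i => by
    have h1 := hint i 0
    rw [Int.cast_zero, zero_div, sub_zero, Int.cast_zero, ZMod.intCast_zmod_eq_zero_iff_dvd] at h1
    exact h1
  have hCs : ((g * k : ℕ) : ℤ) ∣ ∑ p, C p := by
    obtain ⟨z, hz⟩ := hc
    refine ⟨z, ?_⟩
    have h1 : ((∑ p, C p : ℤ) : ℚ) = ((((g * k : ℕ) : ℤ) * z : ℤ) : ℚ) := by
      push_cast
      rw [← hz, mul_sum]
      refine sum_congr rfl fun x _ => ?_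
      rw [← hC]
      push_cast
      ring
    exact_mod_cast h1
  have hfin := sym_count α hα A g k hg0 hk0 E
    (fun j => by
      have := hlam j
      convert this using 2 with l
      exact (hl _ _).symm)
    (by
      convert hinf using 2 with l
      rw [hl]; ring) hcon C hCs x0 (fun l h => hx0 l (by
        rw [den_one_iff]
        obtain ⟨z, hz⟩ := h
        refine ⟨z, ?_⟩
        rw [hl, hcc]
        have h1 : ((E x0 l - C x0 : ℤ) : ℚ) = ((((g * k : ℕ) : ℤ) * z : ℤ) : ℚ) := by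
          exact_mod_cast hz
        push_cast at h1 ⊢
        field_simp
        linarith)) μ hμ
    (by
      refine le_trans (le_of_eq ?_) hW
      congr 1
      ext i
      simp only [mem_filter, mem_univ, true_and]
      rw [← hint0 i]) hgp
  by_cases hgt : ∃ τ : ℤ, (g : ℚ) * t = τ
  · obtain ⟨τ, hτ⟩ := hgt
    have ht' : t = (τ : ℚ) / g := by rw [← hτ]; field_simp
    apply ht
    have h1 := hfin (τ : ZMod g)
    have h2 : (univ.filter fun i : Option (Fin n) × Fin r =>
        (lam i.1 i.2 - c i.1 - t).den = 1) = univ.filter fun i => ((μ i : ℤ) : ZMod g) = τ := by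
      ext i
      simp only [mem_filter, mem_univ, true_and]
      rw [← hint i τ, ht']
    have h3 : (univ.filter fun i : Option (Fin n) × Fin r =>
        (lam i.1 i.2 - c i.1 + t).den = 1) = univ.filter fun i => ((μ i : ℤ) : ZMod g) = -τ := by
      ext i
      simp only [mem_filter, mem_univ, true_and]
      rw [← Int.cast_neg, ← hint i (-τ), ht']
      have h4 : lam i.1 i.2 - c i.1 + (τ : ℚ) / g = lam i.1 i.2 - c i.1 - ((-τ : ℤ) : ℚ) / g := by
        push_cast
        ring
      rw [h4]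
    rw [h2, h3]
    exact h1
  · apply ht
    have h2 : (univ.filter fun i : Option (Fin n) × Fin r =>
        (lam i.1 i.2 - c i.1 - t).den = 1) = ∅ := by
      rw [filter_eq_empty_iff]
      intro i _ h
      obtain ⟨z, hz⟩ := (den_one_iff _).1 h
      apply hgt
      refine ⟨μ i - g * z, ?_⟩
      push_cast
      rw [← hμ1 i, ← hz]
      ring
    have h3 : (univ.filter fun i : Option (Fin n) × Fin r =>
        (lam i.1 i.2 - c i.1 + t).den = 1) = ∅ := by
      rw [filter_eq_empty_iff]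
      intro i _ h
      obtain ⟨z, hz⟩ := (den_one_iff _).1 h
      apply hgt
      refine ⟨g * z - μ i, ?_⟩
      push_cast
      rw [← hμ1 i, ← hz]
      ring
    rw [h2, h3]

/-- One exponent of large multiplicity. -/
theorem mult_ne {n r : ℕ} (lam : Option (Fin n) → Fin r → ℚ) (c : Option (Fin n) → ℚ)
    (x1 : Option (Fin n)) (d : ℚ) (m : ℕ) (e : Option (Fin n) → ℕ)
    (hm : m ≤ (univ.filter fun l => (lam x1 l - d).den = 1).card)
    (h2 : ∀ l, (lam x1 l - c x1).den = 1 ∨ (lam x1 l - d).den = 1)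
    (h3 : (2 * (d - c x1)).den ≠ 1)
    (h4 : ∀ x, x ≠ x1 → ∀ q : ℚ, (q - c x).den ≠ 1 →
      (univ.filter fun l => (lam x l - q).den = 1).card ≤ e x)
    (h5 : ∑ x ∈ univ.erase x1, e x < m) :
    (univ.filter fun i : Option (Fin n) × Fin r =>
      (lam i.1 i.2 - c i.1 - (d - c x1)).den = 1).card ≠
      (univ.filter fun i : Option (Fin n) × Fin r =>
        (lam i.1 i.2 - c i.1 + (d - c x1)).den = 1).card := by
  classical
  have hcard : ∀ P : Option (Fin n) → Fin r → Prop, ∀ [∀ x l, Decidable (P x l)],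
      (univ.filter fun i : Option (Fin n) × Fin r => P i.1 i.2).card =
      ∑ x, (univ.filter fun l => P x l).card := by
    intro P _
    rw [card_filter, Fintype.sum_prod_type]
    exact sum_congr rfl fun x _ => (card_filter _ _).symm
  have hs3 : ¬ ∃ z : ℤ, 2 * (d - c x1) = z := fun h => h3 ((den_one_iff _).2 h)
  have h6 : m ≤ (univ.filter fun i : Option (Fin n) × Fin r =>
      (lam i.1 i.2 - c i.1 - (d - c x1)).den = 1).card := by
    rw [hcard (fun x l => (lam x l - c x - (d - c x1)).den = 1)]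
    refine le_trans ?_ (single_le_sum (fun _ _ => Nat.zero_le _) (mem_univ x1))
    refine hm.trans (card_le_card fun l hl => ?_)
    rw [mem_filter] at hl ⊢
    refine ⟨mem_univ _, ?_⟩
    have h7 : lam x1 l - c x1 - (d - c x1) = lam x1 l - d := by ring
    rw [h7]
    exact hl.2
  have h7 : (univ.filter fun i : Option (Fin n) × Fin r =>
      (lam i.1 i.2 - c i.1 + (d - c x1)).den = 1).card ≤ ∑ x ∈ univ.erase x1, e x := by
    rw [hcard (fun x l => (lam x l - c x + (d - c x1)).den = 1),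
      ← add_sum_erase univ _ (mem_univ x1)]
    have h8 : (univ.filter fun l => (lam x1 l - c x1 + (d - c x1)).den = 1).card = 0 := by
      rw [card_eq_zero, filter_eq_empty_iff]
      intro l _ h
      obtain ⟨z, hz⟩ := (den_one_iff _).1 h
      rcases h2 l with h9 | h9
      · obtain ⟨w, hw⟩ := (den_one_iff _).1 h9
        refine hs3 ⟨2 * (z - w), ?_⟩
        push_cast
        rw [← hz, ← hw]
        ring
      · obtain ⟨w, hw⟩ := (den_one_iff _).1 h9
        refine hs3 ⟨z - w, ?_⟩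
        push_cast
        rw [← hz, ← hw]
        ring
    rw [h8, zero_add]
    refine sum_le_sum fun x hx => ?_
    have h9 := h4 x (ne_of_mem_erase hx) (c x - (d - c x1)) (fun h => by
      obtain ⟨z, hz⟩ := (den_one_iff _).1 h
      refine hs3 ⟨-2 * z, ?_⟩
      push_cast
      rw [← hz]
      ring)
    refine le_trans (le_of_eq ?_) h9
    congr 1
    ext l
    simp only [mem_filter, mem_univ, true_and]
    have h10 : lam x l - c x + (d - c x1) = lam x l - (c x - (d - c x1)) := by ring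
    rw [h10]
  omega

end Pool.Agent.X319.SY
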