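import Pool.Agent.H916R2.OddChar

set_option autoImplicit false
set_option maxHeartbeats 4000000

/-!
Odd functions on `ZMod N` orthogonal to all the dilations of the sawtooth function, with small
support, vanish if the prime factors of `N` are large.
-/

namespace Pool.Agent.X319.SY

open Finset Pool.Agent.H916R2

lemma SS_unit {N : ℕ} [NeZero N] (χ : DirichletCharacter ℂ N) (u : (ZMod N)ˣ) (b : ZMod N) :
    χ u * SS χ ((u : ZMod N) * b) = SS χ b := by
  unfold SS
  rw [mul_sum, ← Equiv.sum_comp (Equiv.mulRight u) (fun t : (ZMod N)ˣ =>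
    χ t * (saw ((t : ZMod N) * b) : ℂ))]
  refine sum_congr rfl fun t _ => ?_
  rw [Equiv.coe_mulRight, Units.val_mul, map_mul, ← mul_assoc, mul_assoc (t : ZMod N)]
  ring

/-- If `SS χ b ≠ 0`, the conductor of `χ` divides the order of `b`. -/
lemma conductor_dvd {N : ℕ} [NeZero N] (χ : DirichletCharacter ℂ N) (b : ZMod N) (e : ℕ)
    (he : e ∣ N) (heb : (e : ZMod N) * b = 0) (h : SS χ b ≠ 0) : χ.conductor ∣ e := by
  refine DirichletCharacter.conductor_dvd_of_mem_conductorSet χ ?_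
  rw [DirichletCharacter.mem_conductorSet_iff,
    DirichletCharacter.factorsThrough_iff_ker_unitsMap he]
  intro u hu
  have h1 : ((u : ZMod N)) * b = b := by
    have h2 : (ZMod.castHom he (ZMod e)) (u : ZMod N) = 1 := by
      have h3 := congrArg (fun x : (ZMod e)ˣ => (x : ZMod e)) (MonoidHom.mem_ker.1 hu)
      simpa [ZMod.unitsMap_def] using h3
    have h4 : (ZMod.castHom he (ZMod e)) ((u : ZMod N) - 1) = 0 := by
      rw [map_sub, h2, map_one, sub_self]
    have h5 : ∃ k : ZMod N, (u : ZMod N) - 1 = e * k := by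
      have h6 : (e : ℕ) ∣ ((u : ZMod N) - 1).val := by
        rw [ZMod.castHom_apply, ZMod.cast_eq_val, ZMod.natCast_eq_zero_iff] at h4
        exact h4
      obtain ⟨k, hk⟩ := h6
      refine ⟨k, ?_⟩
      rw [← ZMod.natCast_zmod_val ((u : ZMod N) - 1), hk]
      push_cast
      ring
    obtain ⟨k, hk⟩ := h5
    have h7 : (u : ZMod N) = 1 + e * k := by rw [← hk]; ring
    rw [h7]
    linear_combination k * heb
  have h8 := SS_unit χ u b
  rw [h1] at h8
  have h9 : χ u = 1 := mul_right_cancel₀ h (by rw [h8, one_mul])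
  rw [MonoidHom.mem_ker]
  ext
  rw [MulChar.coe_toUnitHom, h9, Units.val_one]

lemma exists_order {N : ℕ} [NeZero N] (b : ZMod N) :
    ∃ e : ℕ, e ∣ N ∧ (e : ZMod N) * b = 0 ∧ N = e * Nat.gcd b.val N := by
  have hg : Nat.gcd b.val N ∣ N := Nat.gcd_dvd_right _ _
  refine ⟨N / Nat.gcd b.val N, Nat.div_dvd_of_dvd hg, ?_, (Nat.div_mul_cancel hg).symm⟩
  obtain ⟨k, hk⟩ := Nat.gcd_dvd_left b.val N
  have h1 : ((N / Nat.gcd b.val N : ℕ) : ZMod N) * b =
      ((N / Nat.gcd b.val N * b.val : ℕ) : ZMod N) := by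
    push_cast
    rw [ZMod.natCast_zmod_val]
  rw [h1]
  have h2 : N / Nat.gcd b.val N * b.val = N * k := by
    have h3 : N / Nat.gcd b.val N * b.val = N / Nat.gcd b.val N * (Nat.gcd b.val N * k) := by
      rw [← hk]
    rw [h3, ← mul_assoc, Nat.div_mul_cancel hg]
  rw [h2]
  simp

/-- The Stickelberger sums of primitive odd characters do not vanish at units. -/
lemma SS_ne_zero {d : ℕ} [NeZero d] (χ : DirichletCharacter ℂ d) (hχ : χ.Odd)
    (hp : χ.conductor = d) (y : (ZMod d)ˣ) : SS χ y ≠ 0 := by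
  obtain ⟨a, ha⟩ := exists_SS_ne_zero χ hχ
  obtain ⟨e, he, hea, hde⟩ := exists_order a
  have h1 := conductor_dvd χ a e he hea ha
  rw [hp] at h1
  have h2 : e = d := Nat.dvd_antisymm he h1
  have hd : 0 < d := Nat.pos_of_ne_zero (NeZero.ne d)
  have h3 : Nat.gcd a.val d = 1 := by
    rw [h2] at hde
    nlinarith
  have hau : IsUnit a := by
    rw [← ZMod.natCast_zmod_val a]
    exact (ZMod.isUnit_iff_coprime _ _).2 h3
  obtain ⟨u, hu⟩ := hau
  intro hy
  apply ha
  have h4 := SS_unit χ (u⁻¹ * y) a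
  rw [← h4, ← hu]
  have h5 : (((u⁻¹ * y : (ZMod d)ˣ) : ZMod d)) * u = y := by
    rw [Units.val_mul, mul_comm ((u⁻¹ : (ZMod d)ˣ) : ZMod d), mul_assoc, Units.inv_mul, mul_one]
  rw [h5, hy, mul_zero]

/-- the embedding of `ZMod d` in `ZMod (g * d)` -/
def emb (g d : ℕ) (x : ZMod d) : ZMod (g * d) := ((g * x.val : ℕ) : ZMod (g * d))

lemma saw_natCast {N : ℕ} [NeZero N] (m : ℕ) :
    saw ((m : ℕ) : ZMod N) = if N ∣ m then 0 else 2 * ((m % N : ℕ) : ℤ) - N := by
  unfold saw
  simp only [ZMod.natCast_eq_zero_iff, ZMod.val_natCast]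

lemma saw_emb {g d : ℕ} [NeZero (g * d)] [NeZero d] (t : ZMod (g * d)) (x : ZMod d) :
    saw (t * emb g d x) = g * saw ((ZMod.castHom (Dvd.intro_left g rfl : d ∣ g * d) (ZMod d) t) * x) := by
  have hg : 0 < g := by
    rcases Nat.eq_zero_or_pos g with h | h
    · exfalso
      apply NeZero.ne (g * d)
      rw [h, zero_mul]
    · exact h
  have h1 : t * emb g d x = ((g * (t.val * x.val) : ℕ) : ZMod (g * d)) := by
    unfold emb
    conv_lhs => rw [← ZMod.natCast_zmod_val t]
    push_cast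
    ring
  have h2 : (ZMod.castHom (Dvd.intro_left g rfl : d ∣ g * d) (ZMod d) t) * x =
      ((t.val * x.val : ℕ) : ZMod d) := by
    rw [ZMod.castHom_apply, ZMod.cast_eq_val]
    push_cast
    rw [ZMod.natCast_zmod_val x]
  rw [h1, h2, saw_natCast, saw_natCast]
  have h3 : g * d ∣ g * (t.val * x.val) ↔ d ∣ t.val * x.val := Nat.mul_dvd_mul_iff_left hg
  rw [Nat.mul_mod_mul_left]
  by_cases h4 : d ∣ t.val * x.val
  · rw [if_pos h4, if_pos (h3.2 h4), mul_zero]
  · rw [if_neg h4, if_neg (fun h => h4 (h3.1 h))]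
    push_cast
    ring

lemma sum_unitsMap {N d : ℕ} [NeZero N] [NeZero d] (hd : d ∣ N) (h : (ZMod d)ˣ → ℂ) :
    ∑ t : (ZMod N)ˣ, h (ZMod.unitsMap hd t) =
      ((univ.filter fun t : (ZMod N)ˣ => ZMod.unitsMap hd t = 1).card : ℂ) * ∑ x, h x := by
  classical
  rw [← sum_fiberwise univ (fun t : (ZMod N)ˣ => ZMod.unitsMap hd t), mul_sum]
  refine sum_congr rfl fun x _ => ?_
  rw [sum_congr rfl (g := fun _ => h x) (fun t ht => by rw [(mem_filter.1 ht).2]), sum_const,
    nsmul_eq_mul]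
  congr 2
  exact MonoidHom.card_fiber_eq_of_mem_range (ZMod.unitsMap hd)
    (MonoidHom.mem_range.2 (ZMod.unitsMap_surjective hd x))
    (MonoidHom.mem_range.2 (ZMod.unitsMap_surjective hd 1))

lemma SS_emb {g d : ℕ} [NeZero (g * d)] [NeZero d] (χ : DirichletCharacter ℂ d) (x : ZMod d) :
    SS (DirichletCharacter.changeLevel (Dvd.intro_left g rfl : d ∣ g * d) χ) (emb g d x) =
      (g : ℂ) * ((univ.filter fun t : (ZMod (g * d))ˣ =>
        ZMod.unitsMap (Dvd.intro_left g rfl : d ∣ g * d) t = 1).card : ℂ) * SS χ x := by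
  have h1 := sum_unitsMap (Dvd.intro_left g rfl : d ∣ g * d)
    (fun y : (ZMod d)ˣ => χ y * (saw ((y : ZMod d) * x) : ℂ))
  unfold SS
  rw [mul_assoc, ← h1, mul_sum]
  refine sum_congr rfl fun t _ => ?_
  rw [saw_emb, DirichletCharacter.changeLevel_eq_cast_of_dvd, ZMod.unitsMap_val]
  simp only [ZMod.castHom_apply]
  push_cast
  ring

/-- Orthogonality to the sawtooth functions gives orthogonality to the odd primitive characters. -/
lemma char_sum_eq_zero {g d : ℕ} [NeZero (g * d)] [NeZero d] (F : ZMod (g * d) → ℤ)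
    (hmax : ∀ b, F b ≠ 0 → g ≤ Nat.gcd b.val (g * d))
    (hF : ∀ a : (ZMod (g * d))ˣ, ∑ b, F b * saw ((a : ZMod (g * d)) * b) = 0)
    (χ : DirichletCharacter ℂ d) (hχ : χ.Odd) (hp : χ.conductor = d) :
    ∑ x : (ZMod d)ˣ, (F (emb g d x) : ℂ) * (χ x)⁻¹ = 0 := by
  classical
  have hg : 0 < g := by
    rcases Nat.eq_zero_or_pos g with h | h
    · exfalso
      apply NeZero.ne (g * d)
      rw [h, zero_mul]
    · exact h
  have hd : 0 < d := Nat.pos_of_ne_zero (NeZero.ne d)
  set ψ := DirichletCharacter.changeLevel (Dvd.intro_left g rfl : d ∣ g * d) χ with hψ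
  have hcond : ψ.conductor = d := by
    rw [hψ, DirichletCharacter.conductor_changeLevel, hp]
  have h1 : ∑ b, (F b : ℂ) * SS ψ b = 0 := by
    unfold SS
    simp_rw [mul_sum]
    rw [sum_comm]
    refine sum_eq_zero fun t _ => ?_
    have h2 := congrArg (fun z : ℤ => (z : ℂ)) (hF t)
    simp only [Int.cast_sum, Int.cast_mul, Int.cast_zero] at h2
    calc ∑ b, (F b : ℂ) * (ψ t * (saw ((t : ZMod (g * d)) * b) : ℂ))
        = ψ t * ∑ b, (F b : ℂ) * (saw ((t : ZMod (g * d)) * b) : ℂ) := by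
          rw [mul_sum]
          exact sum_congr rfl fun b _ => by ring
      _ = 0 := by rw [h2, mul_zero]
  -- only the elements of order `d` contribute
  have hval : ∀ x : ZMod d, (emb g d x).val = g * x.val := fun x => by
    unfold emb
    rw [ZMod.val_natCast, Nat.mod_eq_of_lt]
    exact Nat.mul_lt_mul_of_pos_left (ZMod.val_lt x) hg
  have hinj : Function.Injective (fun x : (ZMod d)ˣ => emb g d (x : ZMod d)) := by
    intro x y hxy
    have h2 := congrArg ZMod.val hxy
    simp only [hval] at h2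
    exact Units.ext (ZMod.val_injective d (Nat.eq_of_mul_eq_mul_left hg h2))
  have h3 : ∑ b, (F b : ℂ) * SS ψ b = ∑ x : (ZMod d)ˣ, (F (emb g d x) : ℂ) * SS ψ (emb g d x) := by
    rw [← sum_image (s := univ) (g := fun x : (ZMod d)ˣ => emb g d (x : ZMod d))
      (f := fun b => (F b : ℂ) * SS ψ b) (fun x _ y _ h => hinj h)]
    refine (sum_subset (subset_univ _) fun b _ hb => ?_).symm
    by_contra hne
    have hFb : F b ≠ 0 := fun h => hne (by rw [h]; simp)
    have hSb : SS ψ b ≠ 0 := fun h => hne (by rw [h]; simp)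
    obtain ⟨e, he, heb, hge⟩ := exists_order b
    have h4 := conductor_dvd ψ b e he heb hSb
    rw [hcond] at h4
    have h5 := hmax b hFb
    have he0 : 0 < e := by
      rcases Nat.eq_zero_or_pos e with h | h
      · rw [h, zero_mul] at hge
        have := Nat.mul_pos hg hd
        omega
      · exact h
    have h6 : d ≤ e := Nat.le_of_dvd he0 h4
    have h7 : Nat.gcd b.val (g * d) = g := by
      have h8 : e * Nat.gcd b.val (g * d) ≤ d * g := by rw [← hge, mul_comm]
      have h9 : d * g ≤ d * Nat.gcd b.val (g * d) := Nat.mul_le_mul_left _ h5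
      have h10 : d * Nat.gcd b.val (g * d) ≤ e * Nat.gcd b.val (g * d) := Nat.mul_le_mul_right _ h6
      exact Nat.eq_of_mul_eq_mul_left hd (by omega)
    obtain ⟨k, hk⟩ : g ∣ b.val := by
      have := Nat.gcd_dvd_left b.val (g * d)
      rwa [h7] at this
    have hcop : Nat.Coprime k d := by
      rw [hk, Nat.gcd_mul_left] at h7
      exact Nat.eq_of_mul_eq_mul_left hg (by rw [h7, mul_one])
    have hkd : k < d := by
      have h8 := ZMod.val_lt b
      rw [hk] at h8
      exact Nat.lt_of_mul_lt_mul_left h8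
    apply hb
    rw [mem_image]
    refine ⟨ZMod.unitOfCoprime k hcop, mem_univ _, ?_⟩
    apply ZMod.val_injective
    rw [hval, hk, ZMod.coe_unitOfCoprime, ZMod.val_natCast, Nat.mod_eq_of_lt hkd]
  rw [h3] at h1
  set κ : ℂ := ((univ.filter fun t : (ZMod (g * d))ˣ =>
        ZMod.unitsMap (Dvd.intro_left g rfl : d ∣ g * d) t = 1).card : ℂ) with hκ
  have hκ0 : κ ≠ 0 := by
    rw [hκ, Nat.cast_ne_zero]
    apply (card_pos.2 ⟨1, ?_⟩).ne'
    rw [mem_filter]
    exact ⟨mem_univ _, map_one _⟩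
  have h10 : ∀ x : (ZMod d)ˣ, (F (emb g d x) : ℂ) * SS ψ (emb g d x) =
      ((g : ℂ) * κ * SS χ 1) * ((F (emb g d x) : ℂ) * (χ x)⁻¹) := fun x => by
    rw [hψ, SS_emb]
    have h11 := SS_unit χ x 1
    rw [mul_one] at h11
    have h12 : χ x ≠ 0 := by
      intro h
      have h13 : χ (x : ZMod d) * χ ((x⁻¹ : (ZMod d)ˣ) : ZMod d) = 1 := by
        rw [← map_mul, Units.mul_inv, map_one]
      rw [h, zero_mul] at h13
      exact zero_ne_one h13
    rw [← h11, ← hκ]
    field_simp
  rw [sum_congr rfl fun x _ => h10 x, ← mul_sum] at h1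
  refine (mul_eq_zero.1 h1).resolve_left ?_
  have h14 := SS_ne_zero χ hχ hp 1
  rw [Units.val_one] at h14
  exact mul_ne_zero (mul_ne_zero (by exact_mod_cast hg.ne') hκ0) h14

end Pool.Agent.X319.SY
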