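import Pool.Agent.X319.SY.Char

set_option autoImplicit false
set_option maxHeartbeats 4000000

/-!
Plancherel formula for the characters modulo `d` and the characters which are not primitive.
-/

namespace Pool.Agent.X319.SY

open Finset Pool.Agent.H916R2

noncomputable def tr {d : ℕ} (f : (ZMod d)ˣ → ℤ) [Fintype (ZMod d)ˣ]
    (χ : DirichletCharacter ℂ d) : ℂ :=
  ∑ x : (ZMod d)ˣ, (f x : ℂ) * (χ x)⁻¹

lemma planch {d : ℕ} [NeZero d] (f : (ZMod d)ˣ → ℤ) :
    ∑ χ : DirichletCharacter ℂ d, ‖tr f χ‖ ^ 2 = (d.totient : ℝ) * ∑ x, (f x : ℝ) ^ 2 := by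
  classical
  have hconj : ∀ (χ : DirichletCharacter ℂ d) (x : (ZMod d)ˣ),
      (starRingEnd ℂ) ((χ x)⁻¹) = χ x := fun χ x => by
    have h1 : (starRingEnd ℂ) (χ x) = (χ x)⁻¹ := by
      have h2 := MulChar.star_apply' χ (x : ZMod d)
      rw [MulChar.inv_apply_eq_inv'] at h2
      exact h2
    rw [map_inv₀, h1, inv_inv]
  have hinv : ∀ (χ : DirichletCharacter ℂ d) (x : (ZMod d)ˣ),
      (χ x)⁻¹ = χ ((x : ZMod d)⁻¹) := fun χ x => by
    rw [ZMod.inv_coe_unit]
    have h1 : χ (x : ZMod d) * χ ((x⁻¹ : (ZMod d)ˣ) : ZMod d) = 1 := by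
      rw [← map_mul, Units.mul_inv, map_one]
    exact inv_eq_of_mul_eq_one_right h1
  have h1 : ∀ χ : DirichletCharacter ℂ d, ((‖tr f χ‖ ^ 2 : ℝ) : ℂ) =
      ∑ x : (ZMod d)ˣ, ∑ y : (ZMod d)ˣ, (f x : ℂ) * f y * (χ ((x : ZMod d)⁻¹) * χ y) := by
    intro χ
    have h2 := Complex.mul_conj' (tr f χ)
    push_cast
    rw [← h2]
    unfold tr
    rw [map_sum, sum_mul_sum]
    refine sum_congr rfl fun x _ => sum_congr rfl fun y _ => ?_
    rw [map_mul, hconj, ← hinv]
    simp only [map_intCast]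
    ring
  have h2 : ((∑ χ : DirichletCharacter ℂ d, ‖tr f χ‖ ^ 2 : ℝ) : ℂ) =
      (((d.totient : ℝ) * ∑ x, (f x : ℝ) ^ 2 : ℝ) : ℂ) := by
    rw [Complex.ofReal_sum]
    simp_rw [h1]
    rw [sum_comm]
    push_cast
    rw [mul_sum]
    refine sum_congr rfl fun x _ => ?_
    rw [sum_comm]
    calc ∑ y : (ZMod d)ˣ, ∑ χ : DirichletCharacter ℂ d, (f x : ℂ) * f y *
          (χ ((x : ZMod d)⁻¹) * χ y)
        = ∑ y : (ZMod d)ˣ, (f x : ℂ) * f y * (if x = y then (d.totient : ℂ) else 0) := by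
          refine sum_congr rfl fun y _ => ?_
          rw [← mul_sum, DirichletCharacter.sum_char_inv_mul_char_eq ℂ x.isUnit]
          simp only [Units.val_inj]
      _ = (d.totient : ℂ) * (f x : ℂ) ^ 2 := by
          simp only [mul_ite, mul_zero, sum_ite_eq, mem_univ, if_true]
          ring
  exact_mod_cast h2

/-- the direct image -/
noncomputable def push {d m : ℕ} [NeZero d] (hm : m ∣ d) (f : (ZMod d)ˣ → ℤ) (c : (ZMod m)ˣ) : ℤ :=
  ∑ x ∈ univ.filter (fun x : (ZMod d)ˣ => ZMod.unitsMap hm x = c), f x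

lemma tr_changeLevel {d m : ℕ} [NeZero d] [NeZero m] (hm : m ∣ d) (f : (ZMod d)ˣ → ℤ)
    (χ : DirichletCharacter ℂ m) :
    tr f (DirichletCharacter.changeLevel hm χ) = tr (push hm f) χ := by
  classical
  unfold tr push
  rw [← sum_fiberwise univ (fun x : (ZMod d)ˣ => ZMod.unitsMap hm x)]
  refine sum_congr rfl fun c _ => ?_
  rw [Int.cast_sum, sum_mul]
  refine sum_congr rfl fun x hx => ?_
  rw [mem_filter] at hx
  rw [DirichletCharacter.changeLevel_eq_cast_of_dvd, ← hx.2, ZMod.unitsMap_val]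

lemma push_neg {d m : ℕ} [NeZero d] (hm : m ∣ d) (f : (ZMod d)ˣ → ℤ)
    (hodd : ∀ x, f (-x) = - f x) (c : (ZMod m)ˣ) : push hm f (-c) = - push hm f c := by
  classical
  unfold push
  rw [← sum_neg_distrib]
  refine sum_nbij' (fun x => -x) (fun x => -x) ?_ ?_ (fun x _ => neg_neg x) (fun x _ => neg_neg x)
    (fun x _ => by rw [hodd, neg_neg])
  · intro x hx
    rw [mem_filter] at hx ⊢
    refine ⟨mem_univ _, ?_⟩
    have : ZMod.unitsMap hm (-x) = - ZMod.unitsMap hm x := by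
      ext
      simp [ZMod.unitsMap_def]
    rw [this, hx.2, neg_neg]
  · intro x hx
    rw [mem_filter] at hx ⊢
    refine ⟨mem_univ _, ?_⟩
    have : ZMod.unitsMap hm (-x) = - ZMod.unitsMap hm x := by
      ext
      simp [ZMod.unitsMap_def]
    rw [this, hx.2]

lemma sum_abs_push {d m : ℕ} [NeZero d] [NeZero m] (hm : m ∣ d) (f : (ZMod d)ˣ → ℤ) :
    ∑ c, |push hm f c| ≤ ∑ x, |f x| := by
  classical
  rw [← sum_fiberwise univ (fun x : (ZMod d)ˣ => ZMod.unitsMap hm x)]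
  exact sum_le_sum fun c _ => abs_sum_le_sum_abs _ _

lemma sum_sq_le {m : ℕ} [NeZero m] (f : (ZMod m)ˣ → ℤ) (hodd : ∀ x, f (-x) = - f x) (W : ℕ)
    (hW : ∑ x, |f x| ≤ 2 * W) : ∑ x, f x ^ 2 ≤ W * ∑ x, |f x| := by
  classical
  rw [mul_sum]
  refine sum_le_sum fun x _ => ?_
  have h1 : |f x| ≤ W := by
    by_cases hx : x = -x
    · have h2 := hodd x
      rw [← hx] at h2
      have h3 : f x = 0 := by omega
      rw [h3]
      simp
    · have h2 : |f x| + |f (-x)| ≤ ∑ y, |f y| := by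
        rw [← sum_pair hx (f := fun y => |f y|)]
        exact sum_le_sum_of_subset_of_nonneg (subset_univ _) fun _ _ _ => abs_nonneg _
      rw [hodd, abs_neg] at h2
      omega
  rw [← sq_abs, sq]
  exact mul_le_mul_of_nonneg_right h1 (abs_nonneg _)

lemma totient_div_mul_le {d q : ℕ} (hd : 0 < d) (hq : q.Prime) (hqd : q ∣ d) :
    (d / q).totient * (q - 1) ≤ d.totient := by
  obtain ⟨m, rfl⟩ := hqd
  rw [Nat.mul_div_cancel_left _ hq.pos]
  by_cases h : q ∣ m
  · rw [Nat.totient_mul_of_prime_of_dvd hq h, mul_comm]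
    exact Nat.mul_le_mul_right _ (Nat.sub_le _ _)
  · rw [Nat.totient_mul_of_prime_of_not_dvd hq h, mul_comm]

lemma tr_even {d : ℕ} [NeZero d] (f : (ZMod d)ˣ → ℤ) (hodd : ∀ x, f (-x) = - f x)
    (χ : DirichletCharacter ℂ d) (hχ : ¬ χ.Odd) : tr f χ = 0 := by
  have h1 : χ.Even := (DirichletCharacter.even_or_odd χ).resolve_right hχ
  have h2 : tr f χ = - tr f χ := by
    conv_lhs => unfold tr
    rw [← Equiv.sum_comp (Equiv.neg ((ZMod d)ˣ))]
    unfold tr
    rw [← sum_neg_distrib]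
    refine sum_congr rfl fun x _ => ?_
    rw [Equiv.neg_apply, hodd, Units.val_neg, h1.eval_neg]
    push_cast
    ring
  have h3 : 2 * tr f χ = 0 := by linear_combination h2
  exact (mul_eq_zero.1 h3).resolve_left two_ne_zero

lemma exists_changeLevel {d : ℕ} [NeZero d] (χ : DirichletCharacter ℂ d) (h : χ.conductor ≠ d) :
    ∃ q ∈ d.primeFactors, ∃ (hq : d / q ∣ d) (χ' : DirichletCharacter ℂ (d / q)),
      χ = DirichletCharacter.changeLevel hq χ' := by
  have hd0 : d ≠ 0 := NeZero.ne d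
  have h1 := χ.conductor_dvd_level
  obtain ⟨k, hk⟩ := h1
  have hk1 : k ≠ 1 := by
    rintro rfl
    exact h (by rw [mul_one] at hk; exact hk.symm)
  obtain ⟨q, hq, hqk⟩ := Nat.exists_prime_and_dvd hk1
  have hqd : q ∣ d := by rw [hk]; exact Dvd.dvd.mul_left hqk _
  refine ⟨q, Nat.mem_primeFactors.2 ⟨hq, hqd, hd0⟩, Nat.div_dvd_of_dvd hqd, ?_⟩
  have h2 : χ.conductor ∣ d / q := by
    obtain ⟨l, hl⟩ := hqk
    refine ⟨l, ?_⟩
    apply Nat.div_eq_of_eq_mul_left hq.pos
    rw [hl] at hk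
    nth_rewrite 1 [hk]
    ring
  have h3 := χ.factorsThrough_conductor.mono χ h2 (Nat.div_dvd_of_dvd hqd)
  exact h3.2

theorem main_ineq {d : ℕ} [NeZero d] (f : (ZMod d)ˣ → ℤ) (hodd : ∀ x, f (-x) = - f x)
    (h : ∀ χ : DirichletCharacter ℂ d, χ.Odd → χ.conductor = d → tr f χ = 0) (W : ℕ)
    (hW : ∑ x, |f x| ≤ 2 * W) (x0 : (ZMod d)ˣ) (hx0 : f x0 ≠ 0) :
    ¬ d.Prime ∧ (1 : ℝ) ≤ W * ∑ q ∈ d.primeFactors, (1 : ℝ) / ((q : ℝ) - 1) := by
  classical
  have hd0 : 0 < d := Nat.pos_of_ne_zero (NeZero.ne d)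
  have hpl := planch f
  have hφ : (0 : ℝ) < d.totient := by exact_mod_cast Nat.totient_pos.2 hd0
  have hpos : (0 : ℝ) < ∑ x, (f x : ℝ) ^ 2 :=
    sum_pos' (fun _ _ => sq_nonneg _) ⟨x0, mem_univ _, by
      have : (f x0 : ℝ) ≠ 0 := by exact_mod_cast hx0
      positivity⟩
  constructor
  · intro hp
    have h1 : ∀ χ : DirichletCharacter ℂ d, tr f χ = 0 := by
      intro χ
      by_cases hχ : χ.Odd
      · rcases (Nat.dvd_prime hp).1 χ.conductor_dvd_level with h2 | h2
        · rw [← DirichletCharacter.eq_one_iff_conductor_eq_one] at h2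
          exfalso
          rw [h2] at hχ
          unfold DirichletCharacter.Odd at hχ
          rw [MulChar.one_apply (by simp : IsUnit (-1 : ZMod d))] at hχ
          norm_num at hχ
        · exact h χ hχ h2
      · exact tr_even f hodd χ hχ
    simp only [h1, norm_zero] at hpl
    norm_num at hpl
    rcases hpl with h2 | h2
    · omega
    · linarith
  · -- the union bound
    have hq1 : ∀ q ∈ d.primeFactors, (0 : ℝ) < (q : ℝ) - 1 := fun q hq => by
      have h2 := (Nat.prime_of_mem_primeFactors hq).one_lt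
      have h3 : (1 : ℝ) < q := by exact_mod_cast h2
      linarith
    have hdiv : ∀ q ∈ d.primeFactors, 0 < d / q := fun q hq =>
      Nat.div_pos (Nat.le_of_dvd hd0 (Nat.dvd_of_mem_primeFactors hq))
        (Nat.prime_of_mem_primeFactors hq).pos
    -- sums over the characters of level `d / q`
    let Z : ℕ → ℝ := fun q => if hq : d / q ∣ d ∧ 0 < d / q then
      (haveI : NeZero (d / q) := ⟨hq.2.ne'⟩;
        ∑ χ' : DirichletCharacter ℂ (d / q), ‖tr f (DirichletCharacter.changeLevel hq.1 χ')‖ ^ 2)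
      else 0
    have hZ : ∀ q ∈ d.primeFactors, Z q ≤ (d.totient : ℝ) * W * (∑ x, |(f x : ℝ)|) *
        (1 / ((q : ℝ) - 1)) := by
      intro q hq
      have hqd := Nat.dvd_of_mem_primeFactors hq
      have hqp := Nat.prime_of_mem_primeFactors hq
      have hc : d / q ∣ d ∧ 0 < d / q := ⟨Nat.div_dvd_of_dvd hqd, hdiv q hq⟩
      haveI : NeZero (d / q) := ⟨hc.2.ne'⟩
      have h1 : Z q = ∑ χ' : DirichletCharacter ℂ (d / q),
          ‖tr (push hc.1 f) χ'‖ ^ 2 := by
        simp only [Z]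
        rw [dif_pos hc]
        exact sum_congr rfl fun χ' _ => by rw [tr_changeLevel]
      rw [h1, planch]
      have h2 := sum_sq_le (push hc.1 f) (push_neg hc.1 f hodd) W
        ((sum_abs_push hc.1 f).trans hW)
      have h3 := sum_abs_push hc.1 f
      have h4 : ∑ x, ((push hc.1 f x : ℤ) : ℝ) ^ 2 ≤ W * ∑ x, |(f x : ℝ)| := by
        have h5 : ∑ x, push hc.1 f x ^ 2 ≤ W * ∑ x, |f x| :=
          h2.trans (mul_le_mul_of_nonneg_left h3 (by positivity))
        exact_mod_cast h5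
      have h6 : ((d / q).totient : ℝ) * ((q : ℝ) - 1) ≤ d.totient := by
        have h7 := totient_div_mul_le hd0 hqp hqd
        have h8 : (((d / q).totient * (q - 1) : ℕ) : ℝ) ≤ (d.totient : ℝ) := by exact_mod_cast h7
        rw [Nat.cast_mul, Nat.cast_sub hqp.one_lt.le, Nat.cast_one] at h8
        exact h8
      rw [mul_one_div, le_div_iff₀ (hq1 q hq)]
      have h9 : (0 : ℝ) ≤ ∑ x, |(f x : ℝ)| := sum_nonneg fun _ _ => abs_nonneg _
      have h10 : (0 : ℝ) ≤ ∑ x, ((push hc.1 f x : ℤ) : ℝ) ^ 2 := sum_nonneg fun _ _ => sq_nonneg _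
      have h11 := hq1 q hq
      calc ((d / q).totient : ℝ) * (∑ x, ((push hc.1 f x : ℤ) : ℝ) ^ 2) * ((q : ℝ) - 1)
          = (((d / q).totient : ℝ) * ((q : ℝ) - 1)) * ∑ x, ((push hc.1 f x : ℤ) : ℝ) ^ 2 := by ring
        _ ≤ d.totient * ∑ x, ((push hc.1 f x : ℤ) : ℝ) ^ 2 :=
            mul_le_mul_of_nonneg_right h6 h10
        _ ≤ d.totient * (W * ∑ x, |(f x : ℝ)|) := mul_le_mul_of_nonneg_left h4 hφ.le
        _ = d.totient * W * ∑ x, |(f x : ℝ)| := by ring
    have hcover : ∑ χ : DirichletCharacter ℂ d, ‖tr f χ‖ ^ 2 ≤ ∑ q ∈ d.primeFactors, Z q := by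
      have h1 : ∀ q ∈ d.primeFactors, Z q = ∑ χ : DirichletCharacter ℂ d,
          (if ∃ (hq : d / q ∣ d) (χ' : DirichletCharacter ℂ (d / q)),
            χ = DirichletCharacter.changeLevel hq χ' then ‖tr f χ‖ ^ 2 else 0) := by
        intro q hq
        have hqd := Nat.dvd_of_mem_primeFactors hq
        have hc : d / q ∣ d ∧ 0 < d / q := ⟨Nat.div_dvd_of_dvd hqd, hdiv q hq⟩
        haveI : NeZero (d / q) := ⟨hc.2.ne'⟩
        simp only [Z]
        rw [dif_pos hc, ← sum_filter]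
        rw [← sum_image (s := univ)
          (g := fun χ' : DirichletCharacter ℂ (d / q) => DirichletCharacter.changeLevel hc.1 χ')
          (f := fun χ => ‖tr f χ‖ ^ 2)
          (fun x _ y _ h => DirichletCharacter.changeLevel_injective hc.1 h)]
        congr 1
        ext χ
        simp only [mem_image, mem_univ, true_and, mem_filter]
        constructor
        · rintro ⟨χ', rfl⟩
          exact ⟨hc.1, χ', rfl⟩
        · rintro ⟨_, χ', rfl⟩
          exact ⟨χ', rfl⟩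
      rw [sum_congr rfl h1, sum_comm]
      refine sum_le_sum fun χ _ => ?_
      by_cases h2 : tr f χ = 0
      · rw [h2]
        simp
      · have h3 : χ.Odd := by
          by_contra h4
          exact h2 (tr_even f hodd χ h4)
        have h5 : χ.conductor ≠ d := fun h4 => h2 (h χ h3 h4)
        obtain ⟨q, hq, hq2⟩ := exists_changeLevel χ h5
        refine le_trans (le_of_eq ?_) (single_le_sum (f := fun q => if ∃ (hq : d / q ∣ d)
          (χ' : DirichletCharacter ℂ (d / q)),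
            χ = DirichletCharacter.changeLevel hq χ' then ‖tr f χ‖ ^ 2 else 0)
          (fun q _ => by positivity) hq)
        rw [if_pos hq2]
    rw [hpl] at hcover
    have h1 := hcover.trans (sum_le_sum hZ)
    rw [← mul_sum] at h1
    have h2 : ∑ x, |(f x : ℝ)| ≤ ∑ x, (f x : ℝ) ^ 2 := by
      refine sum_le_sum fun x _ => ?_
      have h3 : |f x| ≤ f x ^ 2 := by
        rw [← sq_abs]
        rcases eq_or_ne (f x) 0 with h4 | h4
        · rw [h4]; simp
        · have := Int.one_le_abs h4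
          nlinarith
      exact_mod_cast h3
    have h3 : (0 : ℝ) < ∑ x, |(f x : ℝ)| := by
      refine sum_pos' (fun _ _ => abs_nonneg _) ⟨x0, mem_univ _, ?_⟩
      have : (f x0 : ℝ) ≠ 0 := by exact_mod_cast hx0
      exact abs_pos.2 this
    set Q := ∑ q ∈ d.primeFactors, (1 : ℝ) / ((q : ℝ) - 1) with hQ
    have h4 : (d.totient : ℝ) * ∑ x, |(f x : ℝ)| ≤
        (d.totient : ℝ) * ∑ x, |(f x : ℝ)| * (W * Q) := by
      calc (d.totient : ℝ) * ∑ x, |(f x : ℝ)| ≤ (d.totient : ℝ) * ∑ x, (f x : ℝ) ^ 2 :=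
            mul_le_mul_of_nonneg_left h2 hφ.le
        _ ≤ (d.totient : ℝ) * W * (∑ x, |(f x : ℝ)|) * Q := h1
        _ = (d.totient : ℝ) * ∑ x, |(f x : ℝ)| * (W * Q) := by rw [← sum_mul]; ring
    rw [← sum_mul, ← mul_assoc] at h4
    exact le_of_mul_le_mul_left (by rw [mul_one]; exact h4) (mul_pos hφ h3)

/-- **Main arithmetic theorem.** -/
theorem odd_eq_zero {N : ℕ} [NeZero N] (F : ZMod N → ℤ) (hodd : ∀ b, F (-b) = - F b)
    (W : ℕ) (hW : ∑ b, |F b| ≤ 2 * W)
    (hN : N.Prime ∨ (W : ℝ) * ∑ q ∈ N.primeFactors, (1 : ℝ) / ((q : ℝ) - 1) < 1)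
    (hF : ∀ a : (ZMod N)ˣ, ∑ b, F b * saw ((a : ZMod N) * b) = 0) (b : ZMod N) : F b = 0 := by
  classical
  by_contra hb
  obtain ⟨b0, hb0, hmin⟩ := exists_min_image (univ.filter fun b => F b ≠ 0)
    (fun b => Nat.gcd b.val N) ⟨b, mem_filter.2 ⟨mem_univ _, hb⟩⟩
  rw [mem_filter] at hb0
  have hb0' := hb0.2
  have hmin' : ∀ b, F b ≠ 0 → Nat.gcd b0.val N ≤ Nat.gcd b.val N := fun b hb =>
    hmin b (mem_filter.2 ⟨mem_univ _, hb⟩)
  obtain ⟨g, hg⟩ : ∃ g, g = Nat.gcd b0.val N := ⟨_, rfl⟩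
  rw [← hg] at hmin'
  have hgN : g ∣ N := by rw [hg]; exact Nat.gcd_dvd_right _ _
  obtain ⟨d, rfl⟩ := hgN
  have hg0 : 0 < g := by
    rcases Nat.eq_zero_or_pos g with h | h
    · exfalso
      apply NeZero.ne (g * d)
      rw [h, zero_mul]
    · exact h
  have hd0 : 0 < d := by
    rcases Nat.eq_zero_or_pos d with h | h
    · exfalso
      apply NeZero.ne (g * d)
      rw [h, mul_zero]
    · exact h
  haveI : NeZero d := ⟨hd0.ne'⟩
  obtain ⟨k, hk⟩ : g ∣ b0.val := by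
    have := Nat.gcd_dvd_left b0.val (g * d)
    rwa [← hg] at this
  have hcop : Nat.Coprime k d := by
    rw [hk, Nat.gcd_mul_left] at hg
    exact Nat.eq_of_mul_eq_mul_left hg0 (by rw [mul_one]; exact hg.symm)
  have hkd : k < d := by
    have h8 := ZMod.val_lt b0
    rw [hk] at h8
    exact Nat.lt_of_mul_lt_mul_left h8
  have hval : ∀ x : ZMod d, (emb g d x).val = g * x.val := fun x => by
    unfold emb
    rw [ZMod.val_natCast, Nat.mod_eq_of_lt]
    exact Nat.mul_lt_mul_of_pos_left (ZMod.val_lt x) hg0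
  have hb0e : b0 = emb g d (ZMod.unitOfCoprime k hcop) := by
    apply ZMod.val_injective
    rw [hval, hk, ZMod.coe_unitOfCoprime, ZMod.val_natCast, Nat.mod_eq_of_lt hkd]
  have hinj : Function.Injective (fun x : (ZMod d)ˣ => emb g d (x : ZMod d)) := by
    intro x y hxy
    have h2 := congrArg ZMod.val hxy
    simp only [hval] at h2
    exact Units.ext (ZMod.val_injective d (Nat.eq_of_mul_eq_mul_left hg0 h2))
  have hneg : ∀ x : ZMod d, emb g d (-x) = - emb g d x := by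
    intro x
    rw [eq_neg_iff_add_eq_zero]
    unfold emb
    rw [← Nat.cast_add, ZMod.natCast_eq_zero_iff, ← mul_add]
    refine Nat.mul_dvd_mul_left g ?_
    rw [← ZMod.natCast_eq_zero_iff]
    push_cast
    rw [ZMod.natCast_zmod_val, ZMod.natCast_zmod_val]
    ring
  let f : (ZMod d)ˣ → ℤ := fun x => F (emb g d x)
  have hf1 : ∀ x, f (-x) = - f x := fun x => by
    simp only [f]
    rw [Units.val_neg, hneg, hodd]
  have hf2 : ∑ x, |f x| ≤ 2 * W := by
    refine le_trans ?_ hW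
    rw [← sum_image (s := univ) (g := fun x : (ZMod d)ˣ => emb g d (x : ZMod d))
      (f := fun b => |F b|) (fun x _ y _ h => hinj h)]
    exact sum_le_sum_of_subset_of_nonneg (subset_univ _) fun _ _ _ => abs_nonneg _
  have hf3 : ∀ χ : DirichletCharacter ℂ d, χ.Odd → χ.conductor = d → tr f χ = 0 := by
    intro χ hχ hc
    exact char_sum_eq_zero F hmin' hF χ hχ hc
  obtain ⟨h1, h2⟩ := main_ineq f hf1 hf3 W hf2 (ZMod.unitOfCoprime k hcop)
    (by simp only [f]; rw [← hb0e]; exact hb0')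
  rcases hN with hN | hN
  · -- `N` prime
    rcases (Nat.prime_mul_iff.1 hN) with h3 | h3
    · -- `d = 1`
      have hd1 : d = 1 := h3.2
      rw [hd1] at h2
      simp at h2
      linarith
    · exact h1 h3.1
  · have h3 : ∑ q ∈ d.primeFactors, (1 : ℝ) / ((q : ℝ) - 1) ≤
        ∑ q ∈ (g * d).primeFactors, (1 : ℝ) / ((q : ℝ) - 1) := by
      refine sum_le_sum_of_subset_of_nonneg (Nat.primeFactors_mono (Dvd.intro_left g rfl)
        (Nat.mul_pos hg0 hd0).ne') fun q hq _ => ?_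
      have h4 := (Nat.prime_of_mem_primeFactors hq).one_lt
      have h5 : (1 : ℝ) < q := by exact_mod_cast h4
      exact div_nonneg zero_le_one (by linarith)
    have h4 := mul_le_mul_of_nonneg_left h3 (Nat.cast_nonneg W : (0 : ℝ) ≤ W)
    linarith

end Pool.Agent.X319.SY
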