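import Pool.Agent.X319.DI.Core
import Pool.Agent.X319.SY.Planch

set_option autoImplicit false
set_option maxHeartbeats 4000000

/-!
Twists by systems of rank one: the two inequalities, and the case of twists without cohomology.
-/

namespace Pool.Agent.X319.SY

open Finset Pool.Agent.W432.PC Pool.Agent.W280.PC Pool.Agent.TH571.PCV Polynomial
open Pool.Agent.X319.DI Pool.Agent.H916R2

universe u

variable {R : Type u} [CommRing R] [IsDomain R] [CharZero R]

lemma emod_sub_one {N : ℤ} (hN : 0 < N) {z : ℤ} (hz : ¬ N ∣ z) : (z - 1) % N = z % N - 1 := by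
  have h1 := Int.emod_add_mul_ediv z N
  have h2 := Int.emod_nonneg z hN.ne'
  have h3 := Int.emod_lt_of_pos z hN
  have h4 : z % N ≠ 0 := fun h => hz (Int.dvd_of_emod_eq_zero h)
  have h5 : z - 1 = (z % N - 1) + N * (z / N) := by linarith
  rw [h5, Int.add_mul_emod_self_left]
  exact Int.emod_eq_of_lt (by omega) (by omega)

lemma emod_add_neg {N : ℤ} (hN : 0 < N) (z : ℤ) :
    z % N + (-z) % N = if N ∣ z then 0 else N := by
  split_ifs with h
  · rw [Int.emod_eq_zero_of_dvd h, Int.emod_eq_zero_of_dvd h.neg_right]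
    rfl
  · have h1 := Int.emod_add_mul_ediv z N
    have h2 := Int.emod_nonneg z hN.ne'
    have h3 := Int.emod_lt_of_pos z hN
    have h4 : z % N ≠ 0 := fun h' => h (Int.dvd_of_emod_eq_zero h')
    have h5 : -z = (N - z % N) + N * (-(z / N) - 1) := by linear_combination h1
    have h6 : (-z) % N = N - z % N := by
      rw [h5, Int.add_mul_emod_self_left]
      exact Int.emod_eq_of_lt (by omega) (by omega)
    rw [h6]
    ring

/-- The inequality for the twist. -/
lemma twist_ineq {n r : ℕ} (α : Fin n → R) (hα : ∀ i j, i ≠ j → IsUnit (α i - α j))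
    (A A' : Fin n → Matrix (Fin r) (Fin r) R)
    (hA' : A' = A ∨ A' = fun j => -(A j).transpose) (N : ℕ) (hN : 0 < N)
    (E : Option (Fin n) → Fin r → ℤ)
    (hE : ∀ j, HasExponents (A' j) (fun l => (E (some j) l : ℚ) / N))
    (hE' : HasExponents (∑ j, A' j) (fun l => -(E none l : ℚ) / N)) (a : ℤ)
    (hno : ¬ Bad α A N a) (C : Option (Fin n) → ℤ) (hC : (N : ℤ) ∣ ∑ p, C p)
    (x0 : Option (Fin n)) (hx0 : ∀ l, ¬ (N : ℤ) ∣ a * (E x0 l - C x0)) :
    (r : ℤ) * N ≤ ∑ p, ∑ l, (a * (E p l - C p)) % (N : ℤ) := by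
  classical
  have hN0 : (0 : ℤ) < N := by exact_mod_cast hN
  let x : Option (Fin n) → ℤ := fun p => if p = x0 then 1 + a * C x0 - a * ∑ p, C p else a * C p
  have hxx : x x0 = 1 + a * C x0 - a * ∑ p, C p := by simp only [x, if_true]
  have hxp : ∀ p, p ≠ x0 → x p = a * C p := fun p hp => by simp only [x, if_neg hp]
  have hx : ∑ p, x p = 1 := by
    rw [← add_sum_erase univ x (mem_univ x0), hxx,
      sum_congr rfl (fun p hp => hxp p (ne_of_mem_erase hp)), ← mul_sum,
      ← add_sum_erase univ C (mem_univ x0)]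
    ring
  have h1 := sym_ineq α hα A A' hA' N hN E hE hE' a hno x hx
  have h2 : ∑ p, ∑ l, (a * E p l - x p) % (N : ℤ) =
      ∑ p, ∑ l, (a * (E p l - C p)) % (N : ℤ) - r := by
    rw [← add_sum_erase univ _ (mem_univ x0),
      ← add_sum_erase univ (fun p => ∑ l, (a * (E p l - C p)) % (N : ℤ)) (mem_univ x0)]
    have h3 : ∑ l, (a * E x0 l - x x0) % (N : ℤ) = ∑ l, (a * (E x0 l - C x0)) % (N : ℤ) - r := by
      have h4 : ∀ l, (a * E x0 l - x x0) % (N : ℤ) = (a * (E x0 l - C x0)) % (N : ℤ) - 1 := by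
        intro l
        rw [← emod_sub_one hN0 (hx0 l), hxx]
        obtain ⟨k, hk⟩ := hC
        have h5 : a * E x0 l - (1 + a * C x0 - a * ∑ p, C p) =
            (a * (E x0 l - C x0) - 1) + N * (a * k) := by rw [hk]; ring
        rw [h5, Int.add_mul_emod_self_left]
      rw [sum_congr rfl fun l _ => h4 l, sum_sub_distrib]
      simp
    rw [h3, sum_congr rfl (g := fun p => ∑ l, (a * (E p l - C p)) % (N : ℤ)) (fun p hp => ?_)]
    · ring
    · refine sum_congr rfl fun l _ => ?_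
      rw [hxp p (ne_of_mem_erase hp)]
      congr 1
      ring
  rw [h2] at h1
  linarith

/-- Both inequalities. -/
theorem twist_both {n r : ℕ} (α : Fin n → R) (hα : ∀ i j, i ≠ j → IsUnit (α i - α j))
    (A : Fin n → Matrix (Fin r) (Fin r) R) (N : ℕ) (hN : 0 < N)
    (E : Option (Fin n) → Fin r → ℤ)
    (hE : ∀ j, HasExponents (A j) (fun l => (E (some j) l : ℚ) / N))
    (hE' : HasExponents (∑ j, A j) (fun l => -(E none l : ℚ) / N)) (a : ℤ)
    (ha : IsCoprime a (N : ℤ))
    (hno : ¬ Bad α A N a) (C : Option (Fin n) → ℤ) (hC : (N : ℤ) ∣ ∑ p, C p)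
    (x0 : Option (Fin n)) (hx0 : ∀ l, ¬ (N : ℤ) ∣ E x0 l - C x0) :
    (r : ℤ) * N ≤ ∑ i : Option (Fin n) × Fin r, (a * (E i.1 i.2 - C i.1)) % (N : ℤ) ∧
    (r : ℤ) * N ≤ ∑ i : Option (Fin n) × Fin r, (-(a * (E i.1 i.2 - C i.1))) % (N : ℤ) := by
  have hx0' : ∀ l, ¬ (N : ℤ) ∣ a * (E x0 l - C x0) := fun l h =>
    hx0 l (ha.symm.dvd_of_dvd_mul_left h)
  constructor
  · rw [Fintype.sum_prod_type]
    exact twist_ineq α hα A A (Or.inl rfl) N hN E hE hE' a hno C hC x0 hx0'
  · rw [Fintype.sum_prod_type]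
    have h1 := twist_ineq α hα A (fun j => -(A j).transpose) (Or.inr rfl) N hN
      (fun p l => -E p l) (fun j => ?_) ?_ a hno (fun p => -C p)
      (by rw [sum_neg_distrib]; exact hC.neg_right) x0 (fun l h => hx0' l ?_)
    · refine h1.trans (le_of_eq ?_)
      refine sum_congr rfl fun p _ => sum_congr rfl fun l _ => ?_
      congr 1
      ring
    · have h2 := hasExponents_dual (hE j)
      convert h2 using 2 with l
      push_cast
      ring
    · have h2 := hasExponents_dual hE'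
      have h3 : ∑ j, -(A j).transpose = -(∑ j, A j).transpose := by
        rw [Matrix.transpose_sum, sum_neg_distrib]
      rw [h3]
      convert h2 using 2 with l
      push_cast
      ring
    · have h2 : a * (-E x0 l - -C x0) = -(a * (E x0 l - C x0)) := by ring
      rw [h2] at h
      exact (dvd_neg).1 h

lemma saw_intCast {M : ℕ} [NeZero M] (z : ℤ) :
    saw ((z : ℤ) : ZMod M) = if (M : ℤ) ∣ z then 0 else 2 * (z % M) - M := by
  unfold saw
  simp only [ZMod.intCast_zmod_eq_zero_iff_dvd, ZMod.val_intCast]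

/-- The symmetry of the exponents of a twist without cohomology. -/
theorem sym_count {n r : ℕ} (α : Fin n → R) (hα : ∀ i j, i ≠ j → IsUnit (α i - α j))
    (A : Fin n → Matrix (Fin r) (Fin r) R) (M k : ℕ) (hM : 0 < M) (hk : 0 < k)
    (E : Option (Fin n) → Fin r → ℤ)
    (hE : ∀ j, HasExponents (A j) (fun l => (E (some j) l : ℚ) / ((M * k : ℕ) : ℚ)))
    (hE' : HasExponents (∑ j, A j) (fun l => -(E none l : ℚ) / ((M * k : ℕ) : ℚ)))
    (hno : ∀ a : ℤ, IsCoprime a ((M * k : ℕ) : ℤ) → ¬ Bad α A (M * k) a)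
    (C : Option (Fin n) → ℤ) (hC : ((M * k : ℕ) : ℤ) ∣ ∑ p, C p)
    (x0 : Option (Fin n)) (hx0 : ∀ l, ¬ ((M * k : ℕ) : ℤ) ∣ E x0 l - C x0)
    (μ : Option (Fin n) × Fin r → ℤ) (hμ : ∀ i, E i.1 i.2 - C i.1 = k * μ i)
    (hW : (univ.filter fun i => ¬ (M : ℤ) ∣ μ i).card ≤ 2 * r)
    (hN : M.Prime ∨ ((2 * r : ℕ) : ℝ) * ∑ q ∈ M.primeFactors, (1 : ℝ) / ((q : ℝ) - 1) < 1)
    (t : ZMod M) :
    (univ.filter fun i => ((μ i : ℤ) : ZMod M) = t).card =
      (univ.filter fun i => ((μ i : ℤ) : ZMod M) = -t).card := by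
  classical
  haveI : NeZero M := ⟨hM.ne'⟩
  haveI : NeZero (M * k) := ⟨(Nat.mul_pos hM hk).ne'⟩
  have hM0 : (0 : ℤ) < M := by exact_mod_cast hM
  have hk0 : (0 : ℤ) < k := by exact_mod_cast hk
  let F : ZMod M → ℤ := fun b => ∑ i, ((if ((μ i : ℤ) : ZMod M) = b then 1 else 0) -
    (if ((μ i : ℤ) : ZMod M) = -b then 1 else 0))
  have hF0 : ∀ b, F (-b) = - F b := fun b => by
    simp only [F]
    rw [← sum_neg_distrib]
    refine sum_congr rfl fun i _ => ?_
    rw [neg_neg]
    ring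
  have hFW : ∑ b, |F b| ≤ 2 * ((2 * r : ℕ) : ℤ) := by
    have h1 : ∑ b, |F b| ≤ ∑ i, ∑ b : ZMod M, |((if ((μ i : ℤ) : ZMod M) = b then (1 : ℤ) else 0) -
        (if ((μ i : ℤ) : ZMod M) = -b then 1 else 0))| := by
      rw [sum_comm]
      exact sum_le_sum fun b _ => abs_sum_le_sum_abs _ _
    have h2 : ∀ i, ∑ b : ZMod M, |((if ((μ i : ℤ) : ZMod M) = b then (1 : ℤ) else 0) -
        (if ((μ i : ℤ) : ZMod M) = -b then 1 else 0))| ≤ if ¬ (M : ℤ) ∣ μ i then 2 else 0 := by
      intro i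
      by_cases h : (M : ℤ) ∣ μ i
      · rw [if_neg (not_not.2 h)]
        have h3 : ((μ i : ℤ) : ZMod M) = 0 := (ZMod.intCast_zmod_eq_zero_iff_dvd _ _).2 h
        refine le_of_eq (sum_eq_zero fun b _ => ?_)
        rw [h3]
        by_cases hb : (0 : ZMod M) = b
        · rw [← hb]; simp
        · rw [if_neg hb, if_neg (fun h => hb (by rw [← neg_neg b, ← h, neg_zero]))]
          simp
      · rw [if_pos h]
        calc ∑ b : ZMod M, |((if ((μ i : ℤ) : ZMod M) = b then (1 : ℤ) else 0) -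
              (if ((μ i : ℤ) : ZMod M) = -b then 1 else 0))|
            ≤ ∑ b : ZMod M, ((if ((μ i : ℤ) : ZMod M) = b then (1 : ℤ) else 0) +
              (if -((μ i : ℤ) : ZMod M) = b then 1 else 0)) := by
              refine sum_le_sum fun b _ => ?_
              have h4 : (((μ i : ℤ) : ZMod M) = -b) ↔ (-((μ i : ℤ) : ZMod M) = b) :=
                ⟨fun h => by rw [h, neg_neg], fun h => by rw [← h, neg_neg]⟩
              simp only [h4]
              split_ifs <;> simp
          _ = 2 := by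
              rw [sum_add_distrib, sum_ite_eq, sum_ite_eq]
              simp
    refine h1.trans ((sum_le_sum fun i _ => h2 i).trans ?_)
    rw [← sum_filter, sum_const, nsmul_eq_mul]
    have h3 : (((univ.filter fun i => ¬ (M : ℤ) ∣ μ i).card : ℕ) : ℤ) ≤ ((2 * r : ℕ) : ℤ) := by
      exact_mod_cast hW
    linarith
  have hFs : ∀ a : (ZMod M)ˣ, ∑ b, F b * saw ((a : ZMod M) * b) = 0 := by
    intro a
    obtain ⟨a', ha'⟩ := ZMod.unitsMap_surjective (Dvd.intro k rfl : M ∣ M * k) a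
    set z : ℤ := ((a' : ZMod (M * k)).val : ℤ) with hz
    have hza : ((z : ℤ) : ZMod M) = a := by
      rw [← ha', ZMod.unitsMap_val, hz, Int.cast_natCast, ← ZMod.cast_eq_val]
    have hzc : IsCoprime z ((M * k : ℕ) : ℤ) := by
      rw [isCoprime_comm, ← ZMod.coe_int_isUnit_iff_isCoprime]
      rw [hz, Int.cast_natCast, ZMod.natCast_zmod_val]
      exact a'.isUnit
    obtain ⟨h1, h2⟩ := twist_both α hα A (M * k) (Nat.mul_pos hM hk) E hE hE' z hzc (hno z hzc) C hC
      x0 hx0
    have h3 : ∀ w : ℤ, (w * k) % ((M * k : ℕ) : ℤ) = (w % M) * k := fun w => by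
      push_cast
      rw [mul_comm w, mul_comm (M : ℤ), Int.mul_emod_mul_of_pos _ _ hk0, mul_comm]
    have h4 : ∀ i : Option (Fin n) × Fin r, (z * (E i.1 i.2 - C i.1)) % ((M * k : ℕ) : ℤ) =
        ((z * μ i) % M) * k := fun i => by
      rw [← h3, hμ]
      congr 1
      ring
    have h5 : ∀ i : Option (Fin n) × Fin r, (-(z * (E i.1 i.2 - C i.1))) % ((M * k : ℕ) : ℤ) =
        ((-(z * μ i)) % M) * k := fun i => by
      rw [← h3, hμ]
      congr 1
      ring
    simp only [h4, h5, ← sum_mul] at h1 h2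
    push_cast at h1 h2
    have h6 : (r : ℤ) * M ≤ ∑ i, (z * μ i) % M := by
      refine le_of_mul_le_mul_right ?_ hk0
      linarith
    have h7 : (r : ℤ) * M ≤ ∑ i, (-(z * μ i)) % M := by
      refine le_of_mul_le_mul_right ?_ hk0
      linarith
    have h8 : ∀ i, (M : ℤ) ∣ z * μ i ↔ (M : ℤ) ∣ μ i := fun i => by
      constructor
      · intro h
        have h9 : IsCoprime z (M : ℤ) := by
          push_cast at hzc
          exact hzc.of_mul_right_left
        exact h9.symm.dvd_of_dvd_mul_left h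
      · intro h
        exact Dvd.dvd.mul_left h _
    have h9 : ∑ i, (z * μ i) % (M : ℤ) + ∑ i, (-(z * μ i)) % (M : ℤ) =
        ((univ.filter fun i => ¬ (M : ℤ) ∣ μ i).card : ℤ) * M := by
      rw [← sum_add_distrib]
      have h10 : ∀ i, (z * μ i) % (M : ℤ) + (-(z * μ i)) % (M : ℤ) =
          if ¬ (M : ℤ) ∣ μ i then (M : ℤ) else 0 := fun i => by
        rw [emod_add_neg hM0, if_congr (h8 i) rfl rfl]
        split_ifs <;> simp_all
      rw [sum_congr rfl fun i _ => h10 i, ← sum_filter, sum_const, nsmul_eq_mul]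
    have h10 : (((univ.filter fun i => ¬ (M : ℤ) ∣ μ i).card : ℕ) : ℤ) ≤ 2 * r := by
      exact_mod_cast hW
    have h11 : (((univ.filter fun i => ¬ (M : ℤ) ∣ μ i).card : ℕ) : ℤ) * M ≤ 2 * r * M :=
      mul_le_mul_of_nonneg_right h10 hM0.le
    have h12 : ∑ i, (z * μ i) % (M : ℤ) = r * M := by linarith
    have h13 : (((univ.filter fun i => ¬ (M : ℤ) ∣ μ i).card : ℕ) : ℤ) * M = 2 * r * M := by
      linarith
    have h14 : ∑ i, saw (((z * μ i : ℤ)) : ZMod M) = 0 := by
      have h15 : ∀ i, saw (((z * μ i : ℤ)) : ZMod M) =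
          2 * ((z * μ i) % M) - if ¬ (M : ℤ) ∣ μ i then (M : ℤ) else 0 := fun i => by
        rw [saw_intCast, if_congr (h8 i) rfl rfl]
        by_cases h : (M : ℤ) ∣ μ i
        · rw [if_pos h, if_neg (not_not.2 h), Int.emod_eq_zero_of_dvd ((h8 i).2 h)]
          rfl
        · rw [if_neg h, if_pos h]
      rw [sum_congr rfl fun i _ => h15 i, sum_sub_distrib, ← mul_sum, h12, ← sum_filter, sum_const,
        nsmul_eq_mul, h13]
      ring
    -- from the indices to the values
    have h16 : ∑ b, F b * saw ((a : ZMod M) * b) = 2 * ∑ i, saw (((z * μ i : ℤ)) : ZMod M) := by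
      simp only [F]
      simp_rw [sum_mul]
      rw [sum_comm, mul_sum]
      refine sum_congr rfl fun i _ => ?_
      have h17 : ∀ b : ZMod M, (((if ((μ i : ℤ) : ZMod M) = b then (1 : ℤ) else 0) -
          (if ((μ i : ℤ) : ZMod M) = -b then 1 else 0)) * saw ((a : ZMod M) * b)) =
          (if ((μ i : ℤ) : ZMod M) = b then saw ((a : ZMod M) * b) else 0) -
          (if -((μ i : ℤ) : ZMod M) = b then saw ((a : ZMod M) * b) else 0) := by
        intro b
        have h4 : (((μ i : ℤ) : ZMod M) = -b) ↔ (-((μ i : ℤ) : ZMod M) = b) :=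
          ⟨fun h => by rw [h, neg_neg], fun h => by rw [← h, neg_neg]⟩
        simp only [h4]
        split_ifs <;> ring
      rw [sum_congr rfl fun b _ => h17 b, sum_sub_distrib, sum_ite_eq, sum_ite_eq]
      simp only [mem_univ, if_true]
      rw [mul_neg, saw_neg, ← hza]
      push_cast
      ring
    rw [h16, h14, mul_zero]
  have hfin := odd_eq_zero F hF0 (2 * r) hFW hN hFs t
  simp only [F] at hfin
  rw [sum_sub_distrib, sum_boole, sum_boole] at hfin
  have : (((univ.filter fun i => ((μ i : ℤ) : ZMod M) = t).card : ℕ) : ℤ) =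
      ((univ.filter fun i => ((μ i : ℤ) : ZMod M) = -t).card : ℕ) := by linarith
  exact_mod_cast this

end Pool.Agent.X319.SY
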